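import Mathlib

namespace Pool.Agent.Results.MP_24d2d6_an.NoLambda

open Set Filter Topology Complex
open scoped ZeroAtInfty Real

/-- the set `Ω(T)` -/
def Om {X : Type} [NormedAddCommGroup X] [NormedSpace ℂ X] (T : X →L[ℂ] X) : Set (X →L[ℂ] X) :=
  {h | ∃ ω : ℕ → ℕ, StrictMono ω ∧ 0 < ω 0 ∧ ∃ D : Set X, Dense D ∧
    ∀ x ∈ D, Tendsto (fun n => (T ^ ω n) x) atTop (𝓝 (h x))}

noncomputable def E (j : ℤ) (k : ℕ) : ℂ := exp (I * ((2 * π * j / 2 ^ k : ℝ) : ℂ))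

lemma E_add (i j : ℤ) (k : ℕ) : E (i + j) k = E i k * E j k := by
  rw [E, E, E, ← exp_add]; congr 1; push_cast; ring

lemma E_norm (j : ℤ) (k : ℕ) : ‖E j k‖ = 1 := norm_exp_I_mul_ofReal _

lemma E_zero (k : ℕ) : E 0 k = 1 := by simp [E]

lemma E_sub (j : ℤ) (k : ℕ) : ‖2 ^ k * (E j k - 1)‖ ≤ 2 * π * |(j : ℝ)| := by
  have := Real.norm_exp_I_mul_ofReal_sub_one_le (x := 2 * π * j / 2 ^ k)
  rw [Real.norm_eq_abs, abs_div, abs_mul, abs_of_pos Real.two_pi_pos,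
    abs_of_pos (by positivity : (0 : ℝ) < 2 ^ k), le_div_iff₀ (by positivity)] at this
  rw [norm_mul, mul_comm]
  simpa [E] using this

lemma E_pow {k n : ℕ} (h : k ≤ n) : E (2 ^ n) k = 1 := by
  obtain ⟨m, rfl⟩ := Nat.exists_eq_add_of_le h
  rw [E, ← exp_int_mul_two_pi_mul_I (2 ^ m)]
  congr 1; push_cast; field_simp; ring

lemma E_far {j : ℕ} (hj : j ≠ 0) : 7 / 5 ≤ ‖E j (Nat.log 2 j + 2) - 1‖ := by
  have h1 : ((2 ^ Nat.log 2 j : ℕ) : ℝ) ≤ j := by exact_mod_cast Nat.pow_log_le_self 2 hj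
  have h2 : (j : ℝ) ≤ (2 ^ (Nat.log 2 j + 1) : ℕ) := by
    exact_mod_cast (Nat.lt_pow_succ_log_self one_lt_two j).le
  push_cast at h1 h2
  set t : ℝ := 2 * π * (j : ℤ) / 2 ^ (Nat.log 2 j + 2) with ht
  have hp : (0 : ℝ) < 2 ^ Nat.log 2 j := by positivity
  have h3 : Real.cos t ≤ 0 := by
    refine Real.cos_nonpos_of_pi_div_two_le_of_le ?_ ?_
    · rw [ht, le_div_iff₀ (by positivity)]; push_cast; rw [pow_add]; nlinarith [Real.pi_pos]
    · rw [ht, div_le_iff₀ (by positivity)]; push_cast; rw [pow_add] at *; nlinarith [Real.pi_pos]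
  rw [E, ← ht, norm_eq_sqrt_sq_add_sq, mul_comm]
  refine Real.le_sqrt_of_sq_le ?_
  simp only [sub_re, sub_im, exp_ofReal_mul_I_re, exp_ofReal_mul_I_im, one_re, one_im]
  nlinarith [Real.sin_sq_add_cos_sq t]

lemma tend (z : C₀(ℕ, ℂ × ℂ)) : Tendsto z atTop (𝓝 0) := by
  simpa [Nat.cofinite_eq_atTop] using zero_at_infty z

def mk (f : ℕ → ℂ × ℂ) (h : Tendsto f atTop (𝓝 0)) : C₀(ℕ, ℂ × ℂ) :=
  ⟨⟨f, continuous_of_discreteTopology⟩, by rwa [cocompact_eq_cofinite, Nat.cofinite_eq_atTop]⟩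

lemma ap_le (x : C₀(ℕ, ℂ × ℂ)) (n : ℕ) : ‖x n‖ ≤ ‖x‖ := x.toBCF.norm_coe_le_norm n

lemma norm_le (x : C₀(ℕ, ℂ × ℂ)) (C : ℝ) (h : ∀ n, ‖x n‖ ≤ C) : ‖x‖ ≤ C :=
  (BoundedContinuousFunction.norm_le (f := x.toBCF) ((norm_nonneg _).trans (h 0))).2 h

lemma bd (j : ℤ) (k : ℕ) (p : ℂ × ℂ) :
    ‖(p.1 + 2 ^ k * (E j k - 1) * p.2, E j k * p.2)‖ ≤ (1 + 2 * π * |(j : ℝ)|) * ‖p‖ := by
  have h1 := norm_fst_le p
  have h2 := norm_snd_le p
  have h3 : 0 ≤ 2 * π * |(j : ℝ)| * ‖p‖ := by positivity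
  refine norm_prod_le_iff.2 ⟨(norm_add_le _ _).trans ?_, ?_⟩
  · rw [norm_mul]
    nlinarith [mul_le_mul (E_sub j k) h2 (norm_nonneg _) (by positivity)]
  · rw [norm_mul, E_norm]; linarith

noncomputable def T (j : ℤ) : C₀(ℕ, ℂ × ℂ) →L[ℂ] C₀(ℕ, ℂ × ℂ) :=
  LinearMap.mkContinuous
    { toFun := fun z => mk (fun k => ((z k).1 + 2 ^ k * (E j k - 1) * (z k).2, E j k * (z k).2))
        (squeeze_zero_norm (fun k => bd j k _) (by simpa using (tend z).norm.const_mul _))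
      map_add' := fun y z => by ext k <;> simp [mk] <;> ring
      map_smul' := fun c z => by ext k <;> simp [mk] <;> ring }
    (1 + 2 * π * |(j : ℝ)|) fun z => norm_le _ _ fun k =>
      (bd j k _).trans (mul_le_mul_of_nonneg_left (ap_le z k) (by positivity))

lemma T_ap (j : ℤ) (z : C₀(ℕ, ℂ × ℂ)) (k : ℕ) :
    T j z k = ((z k).1 + 2 ^ k * (E j k - 1) * (z k).2, E j k * (z k).2) := rfl

lemma T_pow (n : ℕ) : T 1 ^ n = T n := by
  induction n with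
  | zero => ext z k <;> simp [T_ap, E_zero]
  | succ n ih =>
    rw [pow_succ, ih]
    ext z k <;> simp [T_ap, E_add] <;> ring

lemma dense : Dense {z : C₀(ℕ, ℂ × ℂ) | ∃ n, ∀ k ≥ n, z k = 0} := fun z => by
  refine Metric.mem_closure_iff.2 fun ε hε => ?_
  obtain ⟨n, hn⟩ := eventually_atTop.1 ((tend z).norm.eventually
    (gt_mem_nhds (by simpa using half_pos hε : ‖(0 : ℂ × ℂ)‖ < ε / 2)))
  refine ⟨mk (fun k => if k < n then z k else 0) (tendsto_const_nhds.congr' ?_),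
    ⟨n, fun k hk => if_neg (not_lt.2 hk)⟩, ?_⟩
  · filter_upwards [eventually_ge_atTop n] with k hk using (if_neg (not_lt.2 hk)).symm
  · rw [dist_eq_norm]
    refine (norm_le _ (ε / 2) fun k => ?_).trans_lt (half_lt_self hε)
    show ‖z k - if k < n then z k else 0‖ ≤ _
    split_ifs with h
    · simpa using (half_pos hε).le
    · simpa using (hn k (not_lt.1 h)).le

lemma mem_Om (m : ℕ) : T (-m) ∈ Om (T 1) := by
  have h0 : ∀ n, m < 2 ^ (n + m) := fun n =>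
    Nat.lt_two_pow_self.trans_le (Nat.pow_le_pow_right two_pos (by omega))
  refine ⟨fun n => 2 ^ (n + m) - m, strictMono_nat_of_lt_succ fun n => ?_, Nat.sub_pos_of_lt (h0 0),
    _, dense, ?_⟩
  · have := h0 n
    rw [show n + 1 + m = n + m + 1 by ring, pow_succ]; omega
  rintro z ⟨N, hN⟩
  refine tendsto_const_nhds.congr' ?_
  filter_upwards [eventually_ge_atTop N] with n hn
  ext1 k
  rw [T_pow, T_ap, T_ap]
  rcases le_or_gt N k with h | h
  · simp [hN k h]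
  · rw [Nat.cast_sub (h0 n).le, sub_eq_add_neg ((2 ^ (n + m) : ℕ) : ℤ), E_add]
    push_cast
    rw [E_pow (by omega), one_mul]

theorem result : ∃ (X : Type) (_ : NormedAddCommGroup X) (_ : NormedSpace ℂ X) (T : X →L[ℂ] X),
    CompleteSpace X ∧ TopologicalSpace.SeparableSpace X ∧ 1 ∈ Om T ∧
    ∀ Λ : X →L[ℂ] X, ∃ h ∈ Om T,
      (h : X → X) ∉ closure (range fun n : ℕ => ((T ^ (n + 1) * Λ : X →L[ℂ] X) : X → X)) := by
  refine ⟨C₀(ℕ, ℂ × ℂ), inferInstance, inferInstance, T 1, inferInstance, ?_, ?_, fun Λ => ?_⟩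
  · let ι : (n : ℕ) → (Fin n → ℂ × ℂ) →ₗ[ℂ] C₀(ℕ, ℂ × ℂ) := fun n =>
      { toFun := fun v => mk (fun k => if h : k < n then v ⟨k, h⟩ else 0)
          (tendsto_const_nhds.congr' (by
            filter_upwards [eventually_ge_atTop n] with k hk using by simp [not_lt.2 hk]))
        map_add' := fun y z => by ext1 k; by_cases h : k < n <;> simp [mk, h]
        map_smul' := fun c z => by ext1 k; by_cases h : k < n <;> simp [mk, h] }
    refine dense.isSeparable_iff.1 ((TopologicalSpace.isSeparable_iUnion.2 fun n =>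
      TopologicalSpace.isSeparable_range (ι n).continuous_of_finiteDimensional).mono ?_)
    rintro z ⟨n, hn⟩
    refine mem_iUnion.2 ⟨n, fun k => z k, ?_⟩
    ext1 k
    by_cases h : k < n
    · simp [ι, mk, h]
    · simp [ι, mk, h, hn k (not_lt.1 h)]
  · rw [← pow_zero (T 1), T_pow]; exact mem_Om 0
  by_contra! h
  let x := mk (fun k => (0, (1 / 2) ^ k)) (tendsto_const_nhds.prodMk_nhds
    (tendsto_pow_atTop_nhds_zero_of_norm_lt_one (by norm_num)))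
  have hx : ∀ k, x k = (0, (1 / 2) ^ k) := fun k => rfl
  have e2 : ∀ k : ℕ, (2 : ℂ) ^ k * (1 / 2) ^ k = 1 := fun k => by rw [← mul_pow]; simp
  have key : ∀ m : ℕ, T (-m) x ∈ closure (range fun n : ℕ => T (n + 1 : ℕ) (Λ x)) := fun m =>
    map_mem_closure (f := fun g : C₀(ℕ, ℂ × ℂ) → C₀(ℕ, ℂ × ℂ) => g x) (continuous_apply x)
      (h _ (mem_Om m)) (by
      rintro _ ⟨n, rfl⟩; exact ⟨n, by simp only [← T_pow]; rfl⟩)
  have hc : ∀ k, Continuous fun z : C₀(ℕ, ℂ × ℂ) => z k := fun k =>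
    (LipschitzWith.of_dist_le_mul (K := 1) fun y z => by
      simpa [dist_eq_norm] using ap_le (y - z) k).continuous
  have inv : ∀ k, (Λ x k).1 - 2 ^ k * (Λ x k).2 = -1 := fun k => by
    have h1 : IsClosed {z : C₀(ℕ, ℂ × ℂ) | (z k).1 - 2 ^ k * (z k).2 =
        (Λ x k).1 - 2 ^ k * (Λ x k).2} := isClosed_eq
      ((hc k).fst.sub (continuous_const.mul (hc k).snd)) continuous_const
    have h2 := h1.closure_subset_iff.2 (by
      rintro _ ⟨n, rfl⟩; simp only [mem_ofPred_eq, T_ap]; ring) (key 0)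
    simp only [mem_ofPred_eq, T_ap, hx] at h2
    linear_combination -h2 - e2 k
  obtain ⟨K, hK⟩ := eventually_atTop.1 ((tend (Λ x)).norm.eventually
    (gt_mem_nhds (by simp : ‖(0 : ℂ × ℂ)‖ < 1 / 5)))
  obtain ⟨_, ⟨n, rfl⟩, hn⟩ := Metric.mem_closure_iff.1 (key (2 ^ K)) 1 one_pos
  have hj : n + 1 + 2 ^ K ≠ 0 := by positivity
  have h1 := E_far hj
  set k := Nat.log 2 (n + 1 + 2 ^ K) + 2
  have hk : K ≤ k := (Nat.le_log_of_pow_le one_lt_two (by omega)).trans (Nat.le_add_right _ _)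
  have h2 := (norm_fst_le _).trans_lt (hK k hk)
  rw [dist_eq_norm'] at hn
  have h3 := ((norm_fst_le _).trans (ap_le _ k)).trans_lt hn
  have h4 : E (n + 1 + 2 ^ K : ℕ) k - 1 = E (2 ^ K : ℕ) k *
      ((T (n + 1 : ℕ) (Λ x) - T (-(2 ^ K : ℕ)) x) k).1 - E (n + 1 + 2 ^ K : ℕ) k * (Λ x k).1 := by
    have e1 : E (2 ^ K : ℕ) k * E (-(2 ^ K : ℕ)) k = 1 := by rw [← E_add]; simp [E_zero]
    have e3 : E (n + 1 + 2 ^ K : ℕ) k = E (n + 1 : ℕ) k * E (2 ^ K : ℕ) k := by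
      rw [← E_add]; congr 1
    simp only [ZeroAtInftyContinuousMap.sub_apply, T_ap, hx, Prod.fst_sub, e3]
    linear_combination (E (2 ^ K : ℕ) k * (E (n + 1 : ℕ) k - 1)) * inv k + e1 +
      E (2 ^ K : ℕ) k * (E (-(2 ^ K : ℕ)) k - 1) * e2 k
  rw [h4] at h1
  have h5 := h1.trans (norm_sub_le _ _)
  rw [norm_mul, norm_mul, E_norm, E_norm] at h5
  linarith

end Pool.Agent.Results.MP_24d2d6_an.NoLambda
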